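import Mathlib

open Cardinal Set

namespace Pool.Agent.Results.MP_28b4a6_lc.NoMaximalAlephOne

/-- `Pairs X` is the set of unordered pairs of distinct elements of `X`. -/
abbrev Pairs (X : Type) : Type := {e : Sym2 X // ¬ e.IsDiag}

/-- The unordered pair formed by two distinct elements. -/
def pair {X : Type} (x y : X) (h : x ≠ y) : Pairs X :=
  ⟨s(x, y), fun hd => h (Sym2.mk_isDiag_iff.mp hd)⟩

/-- A colouring of pairs is triangle-free if no three distinct points have all their pairs of one
colour. -/
def TriangleFree {X : Type} (c : Pairs X → ℕ) : Prop :=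
  ¬ ∃ (x y z : X) (hxy : x ≠ y) (hyz : y ≠ z) (hxz : x ≠ z),
    c (pair x y hxy) = c (pair y z hyz) ∧ c (pair y z hyz) = c (pair x z hxz)

/-- A colouring of the pairs of `X` is maximal triangle-free if it is triangle-free and no extension
of it to the pairs of `X` together with one new point (here `Option X`) is triangle-free. -/
def MaximalTriangleFree {X : Type} (c : Pairs X → ℕ) : Prop :=
  TriangleFree c ∧ ∀ d : Pairs (Option X) → ℕ,
    (∀ (x y : X) (h : x ≠ y),
      d (pair (some x) (some y) (fun e => h (Option.some.inj e))) = c (pair x y h)) →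
    ¬ TriangleFree d

/-- Two conditions are compatible if they have a common lower bound (smaller is stronger). -/
def Compatible {P : Type} [Preorder P] (p q : P) : Prop := ∃ r, r ≤ p ∧ r ≤ q

/-- The countable chain condition: every set of pairwise incompatible conditions is countable. -/
def CCC (P : Type) [Preorder P] : Prop :=
  ∀ A : Set P, (∀ p ∈ A, ∀ q ∈ A, p ≠ q → ¬ Compatible p q) → A.Countable

/-- A set of conditions is dense if every condition has an element of it below. -/
def IsDenseSet {P : Type} [Preorder P] (D : Set P) : Prop := ∀ p, ∃ d ∈ D, d ≤ p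

/-- Filters of conditions: nonempty, upward closed, downward directed. -/
structure IsForcingFilter {P : Type} [Preorder P] (G : Set P) : Prop where
  nonempty : G.Nonempty
  upward : ∀ p ∈ G, ∀ q, p ≤ q → q ∈ G
  directed : ∀ p ∈ G, ∀ q ∈ G, ∃ r ∈ G, r ≤ p ∧ r ≤ q

/-- Every family of at most `ℵ₁` dense sets of `P` is met by a single filter. -/
def MeetsAlephOne (P : Type) [Preorder P] : Prop :=
  ∀ F : Set (Set P), #F ≤ ℵ₁ → (∀ D ∈ F, IsDenseSet D) →
    ∃ G : Set P, IsForcingFilter G ∧ ∀ D ∈ F, (G ∩ D).Nonempty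

/-- Martin's axiom for `ℵ₁` dense sets. -/
def MartinAxiomAlephOne : Prop :=
  ∀ (P : Type) [Preorder P] [Nonempty P], CCC P → MeetsAlephOne P

/-- `P` is proper: there is a function `f` on finite sequences from the disjoint union of `P` and its
power set (the countable sets closed under `f` form a club) such that for every countable `N` closed
under `f` and every condition `p ∈ N` there is an `(N,P)`-generic condition `q ≤ p`: for every dense
`D ∈ N` the set `D ∩ N` is predense below `q`. -/
def Proper (P : Type) [Preorder P] : Prop :=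
  ∃ f : List (P ⊕ Set P) → P ⊕ Set P, ∀ N : Set (P ⊕ Set P), N.Countable →
    (∀ l : List (P ⊕ Set P), (∀ a ∈ l, a ∈ N) → f l ∈ N) →
    ∀ p : P, Sum.inl p ∈ N → ∃ q ≤ p, ∀ D : Set P, Sum.inr D ∈ N → IsDenseSet D →
      ∀ r ≤ q, ∃ d ∈ D, Sum.inl d ∈ N ∧ Compatible d r

/-- The proper forcing axiom. -/
def ProperForcingAxiom : Prop :=
  ∀ (P : Type) [Preorder P] [Nonempty P], Proper P → MeetsAlephOne P

/-! Auxiliary facts. -/

lemma pair_comm {X : Type} (x y : X) (h : x ≠ y) : pair x y h = pair y x h.symm := by
  unfold pair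
  apply Subtype.ext
  exact Sym2.eq_swap

/-- The values of the extension determined by `g` on the pairs with the new point. -/
noncomputable def extVal {X : Type} (c : Pairs X → ℕ) (g : X → ℕ) : Option X → Option X → ℕ
  | some x, some y => by
      classical
      exact if h : x ≠ y then c (pair x y h) else 0
  | none, some y => g y
  | some x, none => g x
  | none, none => 0

lemma extVal_comm {X : Type} (c : Pairs X → ℕ) (g : X → ℕ) (a b : Option X) :
    extVal c g a b = extVal c g b a := by
  rcases a with _ | x <;> rcases b with _ | y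
  · rfl
  · rfl
  · rfl
  · simp only [extVal]
    by_cases h : x = y
    · subst h; rfl
    · rw [dif_pos h, dif_pos (Ne.symm h), pair_comm]

/-- The extension determined by `g`. -/
noncomputable def ext {X : Type} (c : Pairs X → ℕ) (g : X → ℕ) : Pairs (Option X) → ℕ :=
  fun e => Sym2.lift ⟨extVal c g, extVal_comm c g⟩ e.1

lemma ext_pair {X : Type} (c : Pairs X → ℕ) (g : X → ℕ) (a b : Option X) (h : a ≠ b) :
    ext c g (pair a b h) = extVal c g a b := rfl

/-- An assignment of colours to the points with no conflict yields a triangle-free extension. -/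
lemma not_maximal_of_assignment {X : Type} (c : Pairs X → ℕ) (g : X → ℕ)
    (hg : ∀ (x y : X) (h : x ≠ y), g x = g y → c (pair x y h) ≠ g x) :
    ¬ MaximalTriangleFree c := by
  rintro ⟨hc, hmax⟩
  have hc' : ∀ (x y z : X) (hxy : x ≠ y) (hyz : y ≠ z) (hxz : x ≠ z),
      c (pair x y hxy) = c (pair y z hyz) → c (pair y z hyz) = c (pair x z hxz) → False := by
    intro x y z hxy hyz hxz h1 h2
    exact hc ⟨x, y, z, hxy, hyz, hxz, h1, h2⟩
  have hext : ∀ (x y : X) (h : x ≠ y), extVal c g (some x) (some y) = c (pair x y h) := by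
    intro x y h
    simp only [extVal]
    rw [dif_pos h]
  apply hmax (ext c g)
  · intro x y h
    rw [ext_pair]
    exact hext x y h
  · rintro ⟨a, b, d, hab, hbd, had, h1, h2⟩
    rw [ext_pair, ext_pair] at h1
    rw [ext_pair, ext_pair] at h2
    rcases a with _ | x <;> rcases b with _ | y <;> rcases d with _ | z
    · exact hab rfl
    · exact hab rfl
    · exact had rfl
    · have hyz : y ≠ z := fun e => hbd (by rw [e])
      rw [hext y z hyz] at h1 h2
      simp only [extVal] at h1 h2
      exact hg y z hyz (by rw [h1, h2]) h1.symm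
    · exact hbd rfl
    · have hxz : x ≠ z := fun e => had (by rw [e])
      rw [hext x z hxz] at h2
      simp only [extVal] at h1 h2
      exact hg x z hxz (by rw [h1]) (by rw [← h2, h1])
    · have hxy : x ≠ y := fun e => hab (by rw [e])
      rw [hext x y hxy] at h1
      simp only [extVal] at h1 h2
      exact hg x y hxy h2.symm (by rw [h1, h2])
    · have hxy : x ≠ y := fun e => hab (by rw [e])
      have hyz : y ≠ z := fun e => hbd (by rw [e])
      have hxz : x ≠ z := fun e => had (by rw [e])
      rw [hext x y hxy, hext y z hyz] at h1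
      rw [hext y z hyz, hext x z hxz] at h2
      exact hc' x y z hxy hyz hxz h1 h2

/-- `A` is a clique for the set `K` of colours. -/
def IsClique {X : Type} (c : Pairs X → ℕ) (K : Set ℕ) (A : Set X) : Prop :=
  ∀ (x : X) (_ : x ∈ A) (y : X) (_ : y ∈ A) (h : x ≠ y), c (pair x y h) ∈ K

/-- In a triangle-free colouring there is no infinite clique for a finite set of colours. -/
lemma clique_finite {X : Type} (c : Pairs X → ℕ) (hc : TriangleFree c) (n : ℕ) :
    ∀ (K : Finset ℕ), K.card = n → ∀ A : Set X, IsClique c K A → A.Finite := by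
  classical
  induction n with
  | zero =>
    intro K hK A hA
    have hK' : K = ∅ := Finset.card_eq_zero.mp hK
    subst hK'
    apply Set.Subsingleton.finite
    intro x hx y hy
    by_contra h
    have := hA x hx y hy h
    simp at this
  | succ n ih =>
    intro K hK A hA
    by_contra hinf
    have hinf' : A.Infinite := hinf
    obtain ⟨x, hx⟩ := hinf'.nonempty
    -- the rest of `A` splits into finitely many classes
    let B : ℕ → Set X := fun k => {y | y ∈ A ∧ ∃ h : x ≠ y, c (pair x y h) = k}
    have hcover : A ⊆ {x} ∪ ⋃ k ∈ K, B k := by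
      intro y hy
      by_cases h : x = y
      · left; exact h.symm
      · right
        simp only [Set.mem_iUnion]
        exact ⟨c (pair x y h), hA x hx y hy h, hy, h, rfl⟩
    have : ∃ k ∈ K, (B k).Infinite := by
      by_contra hno
      push Not at hno
      apply hinf
      apply Set.Finite.subset _ hcover
      apply Set.Finite.union (Set.finite_singleton x)
      apply Set.Finite.biUnion (Finset.finite_toSet K)
      intro k hk
      exact hno k hk
    obtain ⟨k, hkK, hkinf⟩ := this
    have hcard : (K.erase k).card = n := by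
      rw [Finset.card_erase_of_mem hkK, hK]; rfl
    apply hkinf
    apply ih (K.erase k) hcard (B k)
    intro y hy z hz hyz
    obtain ⟨hyA, hxy, hyk⟩ := hy
    obtain ⟨hzA, hxz, hzk⟩ := hz
    have h1 : c (pair y z hyz) ∈ (K : Set ℕ) := hA y hyA z hzA hyz
    simp only [Finset.coe_erase, Set.mem_sdiff, Set.mem_singleton_iff]
    refine ⟨h1, ?_⟩
    intro h2
    exact hc ⟨x, y, z, hxy, hyz, hxz, by rw [hyk, h2], by rw [hzk, h2]⟩

/-- Key lemma: there is a countable `S` such that every point outside `S` is joined to `S` by pairs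
of infinitely many colours. -/
lemma exists_countable_set {X : Type} (c : Pairs X → ℕ) (hc : TriangleFree c) :
    ∃ S : Set X, S.Countable ∧ ∀ y ∉ S,
      {k : ℕ | ∃ x ∈ S, ∃ h : x ≠ y, c (pair x y h) = k}.Infinite := by
  classical
  have hmax : ∀ K : Finset ℕ, ∃ A : Set X, Maximal (fun A => IsClique c K A) A := by
    intro K
    obtain ⟨A, hA⟩ := zorn_subset {A : Set X | IsClique c K A} (by
      intro C hC hchain
      refine ⟨⋃₀ C, ?_, fun s hs => Set.subset_sUnion_of_mem hs⟩
      intro x hx y hy hxy
      obtain ⟨s, hs, hxs⟩ := hx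
      obtain ⟨t, ht, hyt⟩ := hy
      rcases hchain.total hs ht with h | h
      · exact hC ht x (h hxs) y hyt hxy
      · exact hC hs x hxs y (h hyt) hxy)
    exact ⟨A, hA⟩
  choose A hA using hmax
  refine ⟨⋃ K : Finset ℕ, A K, ?_, ?_⟩
  · apply Set.countable_iUnion
    intro K
    exact (clique_finite c hc K.card K rfl (A K) (hA K).prop).countable
  · intro y hy hfin
    have hfin' := hfin
    set K : Finset ℕ := Set.Finite.toFinset hfin with hKdef
    have hsub : IsClique c K (insert y (A K)) := by
      intro u hu v hv huv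
      rcases hu with rfl | hu
      · rcases hv with rfl | hv
        · exact absurd rfl huv
        · simp only [hKdef, Set.Finite.coe_toFinset, Set.mem_ofPred_eq]
          refine ⟨v, Set.mem_iUnion.mpr ⟨K, hv⟩, huv.symm, ?_⟩
          rw [pair_comm]
      · rcases hv with rfl | hv
        · simp only [hKdef, Set.Finite.coe_toFinset, Set.mem_ofPred_eq]
          exact ⟨u, Set.mem_iUnion.mpr ⟨K, hu⟩, huv, rfl⟩
        · exact (hA K).prop u hu v hv huv
    have := (hA K).le_of_ge hsub (Set.subset_insert y (A K))
    exact hy (Set.mem_iUnion.mpr ⟨K, this (Set.mem_insert y (A K))⟩)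

/-- Cohen conditions: finite sequences of elements of `A`, longer is stronger. -/
structure Cond (A : Type) where
  seq : List A

instance (A : Type) : Preorder (Cond A) where
  le p q := q.seq <+: p.seq
  le_refl p := List.prefix_rfl
  le_trans p q r h1 h2 := h2.trans h1

lemma Cond.le_iff {A : Type} (p q : Cond A) : p ≤ q ↔ q.seq <+: p.seq := Iff.rfl

instance (A : Type) : Nonempty (Cond A) := ⟨⟨[]⟩⟩

lemma cond_countable (A : Type) [Countable A] : Countable (Cond A) := by
  have : Function.Injective (fun p : Cond A => p.seq) := by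
    intro p q h
    cases p; cases q; simp at h; rw [h]
  exact this.countable

/-- The combinatorial core: a colouring of at most `ℵ₁` points has a conflict-free assignment as
soon as the Cohen poset satisfies the forcing axiom. -/
lemma exists_assignment {X : Type} (hX : #X ≤ ℵ₁) (c : Pairs X → ℕ) (hc : TriangleFree c)
    (hMA : ∀ (A : Type) [Countable A], MeetsAlephOne (Cond A)) :
    ∃ g : X → ℕ, ∀ (x y : X) (h : x ≠ y), g x = g y → c (pair x y h) ≠ g x := by
  classical
  obtain ⟨S, hS, hSinf⟩ := exists_countable_set c hc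
  have hSc : Countable S := hS.to_subtype
  -- dense sets
  let D : X → Set (Cond (Option S)) := fun y =>
    {p | ∃ (k : ℕ) (x : S) (h : (x : X) ≠ y), p.seq[k]? = some (some x) ∧ c (pair (x : X) y h) = k}
  let E : ℕ → Set (Cond (Option S)) := fun n =>
    {p | ∃ k, n ≤ k ∧ p.seq[k]? = some none}
  have hD : ∀ y ∉ S, IsDenseSet (D y) := by
    intro y hy p
    obtain ⟨k, hk, hkn⟩ := (hSinf y hy).exists_gt p.seq.length
    obtain ⟨x, hx, hxy, hck⟩ := hk
    refine ⟨⟨p.seq ++ List.replicate (k - p.seq.length) none ++ [some ⟨x, hx⟩]⟩, ?_, ?_⟩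
    · refine ⟨k, ⟨x, hx⟩, hxy, ?_, hck⟩
      have hlen : (p.seq ++ List.replicate (k - p.seq.length) none).length = k := by
        simp; omega
      rw [List.getElem?_append_right (by omega), hlen]
      simp
    · rw [Cond.le_iff, List.append_assoc]
      exact List.prefix_append _ _
  have hE : ∀ n, IsDenseSet (E n) := by
    intro n p
    refine ⟨⟨p.seq ++ List.replicate (n + 1) none⟩, ?_, ?_⟩
    · refine ⟨p.seq.length + n, by omega, ?_⟩
      rw [List.getElem?_append_right (by omega)]
      simp
    · rw [Cond.le_iff]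
      exact List.prefix_append _ _
  obtain ⟨G, hG, hGm⟩ := hMA (Option S) ((D '' {y | y ∉ S}) ∪ Set.range E) (by
      refine (mk_union_le _ _).trans ?_
      have h1 : #(D '' {y | y ∉ S}) ≤ ℵ₁ :=
        (mk_image_le).trans ((mk_set_le _).trans hX)
      have h2 : #(Set.range E) ≤ ℵ₁ :=
        (mk_range_le).trans (by simp)
      exact (add_le_add h1 h2).trans (by
        rw [Cardinal.add_eq_self (aleph0_le_aleph 1)]))
    (by
      rintro _ (⟨y, hy, rfl⟩ | ⟨n, rfl⟩)
      · exact hD y hy
      · exact hE n)
  -- uniqueness of the generic value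
  have huniq : ∀ p ∈ G, ∀ q ∈ G, ∀ (k : ℕ) (a b : Option S),
      p.seq[k]? = some a → q.seq[k]? = some b → a = b := by
    intro p hp q hq k a b ha hb
    obtain ⟨r, hr, hrp, hrq⟩ := hG.directed p hp q hq
    have h1 : r.seq[k]? = some a := by
      obtain ⟨t, ht⟩ := (Cond.le_iff r p).mp hrp
      rw [← ht, List.getElem?_append_left, ha]
      exact (List.getElem?_eq_some_iff.mp ha).1
    have h2 : r.seq[k]? = some b := by
      obtain ⟨t, ht⟩ := (Cond.le_iff r q).mp hrq
      rw [← ht, List.getElem?_append_left, hb]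
      exact (List.getElem?_eq_some_iff.mp hb).1
    rw [h1] at h2
    exact Option.some.inj h2
  -- colours for points outside S
  have hcol : ∀ y : X, y ∉ S → ∃ k : ℕ, ∃ (x : S) (h : (x : X) ≠ y), (∃ p ∈ G, p.seq[k]? = some (some x)) ∧
      c (pair (x : X) y h) = k := by
    intro y hy
    obtain ⟨p, hpG, hpD⟩ := hGm (D y) (Or.inl ⟨y, hy, rfl⟩)
    obtain ⟨k, x, h, h1, h2⟩ := hpD
    exact ⟨k, x, h, ⟨p, hpG, h1⟩, h2⟩
  choose! col hcol using hcol
  -- spare colours
  let T : Set ℕ := {k | ∃ p ∈ G, p.seq[k]? = some none}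
  have hT : T.Infinite := by
    rw [Set.infinite_iff_exists_gt]
    intro n
    obtain ⟨p, hpG, k, hk, hpk⟩ := hGm (E (n + 1)) (Or.inr ⟨n + 1, rfl⟩)
    exact ⟨k, ⟨p, hpG, hpk⟩, by omega⟩
  obtain ⟨e, he⟩ : ∃ e : X → ℕ, Set.InjOn e S := by
    obtain ⟨e, he⟩ := (countable_iff_exists_injOn).mp hS
    exact ⟨e, he⟩
  have : Infinite T := hT.to_subtype
  let emb : ℕ ↪ T := Infinite.natEmbedding T
  refine ⟨fun y => if y ∈ S then (emb (e y) : ℕ) else col y, ?_⟩
  intro x y hxy hgxy
  by_cases hx : x ∈ S <;> by_cases hy : y ∈ S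
  · simp only [hx, hy, if_true] at hgxy
    have : e x = e y := emb.injective (Subtype.ext hgxy)
    exact absurd (he hx hy this) hxy
  · simp only [hx, hy, if_true, if_false] at hgxy
    obtain ⟨s, hs, ⟨p, hpG, hp⟩, -⟩ := hcol y hy
    obtain ⟨q, hqG, hq⟩ := (emb (e x)).2
    rw [hgxy] at hq
    have := huniq p hpG q hqG _ _ _ hp hq
    simp at this
  · simp only [hx, hy, if_true, if_false] at hgxy
    obtain ⟨s, hs, ⟨p, hpG, hp⟩, -⟩ := hcol x hx
    obtain ⟨q, hqG, hq⟩ := (emb (e y)).2
    rw [← hgxy] at hq
    have := huniq p hpG q hqG _ _ _ hp hq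
    simp at this
  · simp only [hx, hy, if_false] at hgxy ⊢
    obtain ⟨s, hs, ⟨p, hpG, hp⟩, hcs⟩ := hcol x hx
    obtain ⟨t, ht, ⟨q, hqG, hq⟩, hct⟩ := hcol y hy
    rw [← hgxy] at hq hct
    have hst := huniq p hpG q hqG _ _ _ hp hq
    have hst' : s = t := Option.some.inj hst
    subst hst'
    intro hc2
    exact hc ⟨x, s, y, hs.symm, ht, hxy, by rw [← pair_comm (s : X) x hs, hcs, hct], by rw [hct, hc2]⟩

/-- Countable forcing notions are ccc. -/
lemma ccc_of_countable (P : Type) [Preorder P] [Countable P] : CCC P :=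
  fun A _ => Set.to_countable A

/-- ccc forcing notions are proper. -/
lemma proper_of_ccc (P : Type) [Preorder P] [Nonempty P] (h : CCC P) : Proper P := by
  classical
  have hanti : ∀ D : Set P, IsDenseSet D → ∃ a : ℕ → P, (∀ n, a n ∈ D) ∧
      ∀ r, ∃ n, Compatible (a n) r := by
    intro D hD
    obtain ⟨A, hA⟩ := zorn_subset {A : Set P | A ⊆ D ∧ ∀ p ∈ A, ∀ q ∈ A, p ≠ q → ¬ Compatible p q}
      (by
        intro C hC hchain
        refine ⟨⋃₀ C, ⟨?_, ?_⟩, fun s hs => Set.subset_sUnion_of_mem hs⟩
        · exact Set.sUnion_subset fun s hs => (hC hs).1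
        · intro x hx y hy hxy
          obtain ⟨s, hs, hxs⟩ := hx
          obtain ⟨t, ht, hyt⟩ := hy
          rcases hchain.total hs ht with h | h
          · exact (hC ht).2 x (h hxs) y hyt hxy
          · exact (hC hs).2 x hxs y (h hyt) hxy)
    have hpre : ∀ r, ∃ a ∈ A, Compatible a r := by
      intro r
      obtain ⟨d, hd, hdr⟩ := hD r
      by_contra hno
      push Not at hno
      have hins : insert d A ⊆ A := by
        apply hA.le_of_ge _ (Set.subset_insert d A)
        refine ⟨Set.insert_subset hd hA.prop.1, ?_⟩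
        intro x hx y hy hxy
        rcases hx with rfl | hx
        · rcases hy with rfl | hy
          · exact absurd rfl hxy
          · rintro ⟨w, hw1, hw2⟩
            exact hno y hy ⟨w, hw2, hw1.trans hdr⟩
        · rcases hy with rfl | hy
          · rintro ⟨w, hw1, hw2⟩
            exact hno x hx ⟨w, hw1, hw2.trans hdr⟩
          · exact hA.prop.2 x hx y hy hxy
      exact hno d (hins (Set.mem_insert d A)) ⟨d, le_rfl, hdr⟩
    have hAne : A.Nonempty := by
      obtain ⟨a, ha, -⟩ := hpre (Classical.arbitrary P)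
      exact ⟨a, ha⟩
    obtain ⟨a, ha⟩ := (h A hA.prop.2).exists_eq_range hAne
    refine ⟨a, fun n => hA.prop.1 (ha ▸ Set.mem_range_self n), ?_⟩
    intro r
    obtain ⟨x, hx, hxr⟩ := hpre r
    rw [ha] at hx
    obtain ⟨n, rfl⟩ := hx
    exact ⟨n, hxr⟩
  choose! a haD hapre using hanti
  let f : List (P ⊕ Set P) → P ⊕ Set P := fun l =>
    match l with
    | Sum.inr D :: t => Sum.inl (a D t.length)
    | _ => Sum.inl (Classical.arbitrary P)
  refine ⟨f, ?_⟩
  intro N _ hN p hp
  refine ⟨p, le_rfl, ?_⟩
  intro D hDN hD r hr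
  obtain ⟨n, hn⟩ := hapre D hD r
  refine ⟨a D n, haD D hD n, ?_, hn⟩
  have := hN (Sum.inr D :: List.replicate n (Sum.inr D)) (by
    intro x hx
    rcases List.mem_cons.mp hx with rfl | hx
    · exact hDN
    · rw [(List.mem_replicate.mp hx).2]
      exact hDN)
  simpa [f] using this

/-- Under Martin's axiom for `ℵ₁` dense sets, or under the proper forcing axiom, no colouring of the
pairs of a set of size at most `ℵ₁` by natural numbers is maximal triangle-free. -/
theorem result (hax : MartinAxiomAlephOne ∨ ProperForcingAxiom)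
    (X : Type) (hX : #X ≤ ℵ₁) (c : Pairs X → ℕ) : ¬ MaximalTriangleFree c := by
  intro hmax
  have hMA : ∀ (A : Type) [Countable A], MeetsAlephOne (Cond A) := by
    intro A _
    have := cond_countable A
    rcases hax with h | h
    · exact h (Cond A) (ccc_of_countable _)
    · exact h (Cond A) (proper_of_ccc _ (ccc_of_countable _))
  obtain ⟨g, hg⟩ := exists_assignment hX c hmax.1 hMA
  exact not_maximal_of_assignment c g hg hmax

end Pool.Agent.Results.MP_28b4a6_lc.NoMaximalAlephOne
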